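import Pool.Agent.E8helper61.Mag.Defs

/-!
Part C2 of project MAG: the tope graph of a real hyperplane arrangement in terms of sign vectors.
-/

namespace Pool.Agent.E8helper15.MAG

open H61Mag

variable {d : ℕ}

/-- a hyperplane is the kernel of a linear form -/
theorem exists_form (H : Submodule ℝ (Fin d → ℝ)) (h : Module.finrank ℝ H + 1 = d) :
    ∃ f : Module.Dual ℝ (Fin d → ℝ), LinearMap.ker f = H := by
  have h1 : Module.finrank ℝ ((Fin d → ℝ) ⧸ H) = 1 := by
    have := Submodule.finrank_quotient_add_finrank H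
    rw [Module.finrank_fin_fun] at this
    omega
  have h2 : Module.finrank ℝ ((Fin d → ℝ) ⧸ H) = Module.finrank ℝ ℝ := by
    rw [h1, Module.finrank_self]
  let e : ((Fin d → ℝ) ⧸ H) ≃ₗ[ℝ] ℝ := LinearEquiv.ofFinrankEq _ _ h2
  refine ⟨e.toLinearMap ∘ₗ H.mkQ, ?_⟩
  rw [LinearMap.ker_comp, LinearEquiv.ker, ← LinearMap.ker, Submodule.ker_mkQ]

variable (A : Arrangement d)

/-- a choice of forms -/
noncomputable def frm (H : A.planes) : Module.Dual ℝ (Fin d → ℝ) :=
  (exists_form H.1 (A.hyper H.1 H.2)).choose

theorem ker_frm (H : A.planes) : LinearMap.ker (frm A H) = H.1 :=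
  (exists_form H.1 (A.hyper H.1 H.2)).choose_spec

theorem frm_eq_zero (H : A.planes) (v : Fin d → ℝ) : frm A H v = 0 ↔ v ∈ H.1 := by
  rw [← ker_frm A H, LinearMap.mem_ker]

theorem sgn_eq_zero (H : A.planes) (v : Fin d → ℝ) : sgn (frm A) v H = 0 ↔ v ∈ H.1 := by
  rw [← frm_eq_zero A H v]
  simp [sgn]

theorem mem_compl (v : Fin d → ℝ) : v ∈ A.compl ↔ z (sgn (frm A) v) = ∅ := by
  simp only [Arrangement.compl, Set.mem_ofPred_eq, z, Finset.filter_eq_empty_iff,
    Finset.mem_univ, true_imp_iff]
  constructor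
  · intro h H
    rw [sgn_eq_zero]
    exact h H.1 H.2
  · intro h H hH
    have := h (x := ⟨H, hH⟩)
    rw [sgn_eq_zero] at this
    exact this

/-- sign regions -/
def R (s : Sg A.planes) : Set (Fin d → ℝ) := {v | sgn (frm A) v = s}

theorem convex_R (s : Sg A.planes) : Convex ℝ (R A s) := by
  intro x hx y hy a b ha hb hab
  simp only [R, Set.mem_ofPred_eq] at hx hy ⊢
  funext H
  have hx' := congrFun hx H
  have hy' := congrFun hy H
  simp only [sgn] at hx' hy' ⊢
  rw [map_add, map_smul, map_smul, smul_eq_mul, smul_eq_mul]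
  rcases lt_trichotomy (frm A H x) 0 with h | h | h
  · have h1 : s H = -1 := by rw [← hx', sign_neg h]
    rw [h1] at hy' ⊢
    have h2 : frm A H y < 0 := sign_eq_neg_one_iff.mp hy'
    apply sign_neg
    rcases ha.eq_or_lt with h0 | h0
    · have : b = 1 := by linarith
      rw [← h0, this]; linarith
    · nlinarith
  · have h1 : s H = 0 := by rw [← hx', h, sign_zero]
    rw [h1] at hy' ⊢
    have h2 : frm A H y = 0 := sign_eq_zero_iff.mp hy'
    rw [h, h2]; simp
  · have h1 : s H = 1 := by rw [← hx', sign_pos h]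
    rw [h1] at hy' ⊢
    have h2 : 0 < frm A H y := sign_eq_one_iff.mp hy'
    apply sign_pos
    rcases ha.eq_or_lt with h0 | h0
    · have : b = 1 := by linarith
      rw [← h0, this]; linarith
    · nlinarith

/-- signs are constant on preconnected subsets of the complement -/
theorem sgn_const {S : Set (Fin d → ℝ)} (hS : IsPreconnected S) (hc : S ⊆ A.compl)
    {p q : Fin d → ℝ} (hp : p ∈ S) (hq : q ∈ S) : sgn (frm A) p = sgn (frm A) q := by
  funext H
  have hcont : Continuous (frm A H) := LinearMap.continuous_of_finiteDimensional _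
  have him : IsPreconnected ((frm A H) '' S) := hS.image _ hcont.continuousOn
  have hord := him.ordConnected
  have h0 : (0 : ℝ) ∉ (frm A H) '' S := by
    rintro ⟨v, hv, hv0⟩
    exact hc hv H.1 H.2 ((frm_eq_zero A H v).mp hv0)
  have hpm : frm A H p ∈ (frm A H) '' S := ⟨p, hp, rfl⟩
  have hqm : frm A H q ∈ (frm A H) '' S := ⟨q, hq, rfl⟩
  have hp0 : frm A H p ≠ 0 := fun h => h0 (h ▸ hpm)
  have hq0 : frm A H q ≠ 0 := fun h => h0 (h ▸ hqm)
  simp only [sgn]
  rcases lt_or_gt_of_ne hp0 with h1 | h1 <;> rcases lt_or_gt_of_ne hq0 with h2 | h2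
  · rw [sign_neg h1, sign_neg h2]
  · exact absurd (hord.out hpm hqm ⟨h1.le, h2.le⟩) h0
  · exact absurd (hord.out hqm hpm ⟨h2.le, h1.le⟩) h0
  · rw [sign_pos h1, sign_pos h2]

theorem comp_eq_R {p : Fin d → ℝ} (hp : p ∈ A.compl) :
    connectedComponentIn A.compl p = R A (sgn (frm A) p) := by
  apply Set.Subset.antisymm
  · intro q hq
    simp only [R, Set.mem_ofPred_eq]
    exact sgn_const A isPreconnected_connectedComponentIn
      (connectedComponentIn_subset _ _) hq (mem_connectedComponentIn hp)
  · apply IsPreconnected.subset_connectedComponentIn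
    · exact (convex_R A _).isPreconnected
    · simp [R]
    · intro q hq
      simp only [R, Set.mem_ofPred_eq] at hq
      rw [mem_compl, hq, ← mem_compl]
      exact hp

/-- the sign vector of a chamber -/
noncomputable def chi (C : A.Chamber) : Sg A.planes := sgn (frm A) C.2.choose

theorem chamber_eq (C : A.Chamber) : C.1 = R A (chi A C) := by
  have h := C.2.choose_spec
  rw [chi, ← comp_eq_R A h.1]
  exact h.2

theorem chi_inj : Function.Injective (chi A) := by
  intro C C' h
  apply Subtype.ext
  rw [chamber_eq A C, chamber_eq A C', h]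

theorem z_chi (C : A.Chamber) : z (chi A C) = ∅ := by
  rw [chi, ← mem_compl]
  exact C.2.choose_spec.1

theorem chi_mem (C : A.Chamber) : chi A C ∈ Set.range (sgn (frm A)) := ⟨_, rfl⟩

theorem chi_ne_zero (C : A.Chamber) (H : A.planes) : chi A C H ≠ 0 := by
  intro h
  have : H ∈ z (chi A C) := by simp [z, h]
  rw [z_chi] at this
  simp at this

theorem chi_range (s : Sg A.planes) :
    s ∈ Set.range (chi A) ↔ (s ∈ Set.range (sgn (frm A)) ∧ z s = ∅) := by
  constructor
  · rintro ⟨C, rfl⟩
    exact ⟨chi_mem A C, z_chi A C⟩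
  · rintro ⟨⟨v, rfl⟩, hz⟩
    have hv : v ∈ A.compl := (mem_compl A v).mpr hz
    refine ⟨⟨connectedComponentIn A.compl v, v, hv, rfl⟩, ?_⟩
    have h := chamber_eq A ⟨connectedComponentIn A.compl v, v, hv, rfl⟩
    have h2 : v ∈ R A (chi A ⟨connectedComponentIn A.compl v, v, hv, rfl⟩) := by
      rw [← h]; exact mem_connectedComponentIn hv
    exact h2.symm

theorem sgn_of_mem {C : A.Chamber} {p : Fin d → ℝ} (hp : p ∈ C.1) : sgn (frm A) p = chi A C := by
  rw [chamber_eq A C] at hp
  exact hp

theorem exists_mem (C : A.Chamber) : ∃ p, p ∈ C.1 := by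
  obtain ⟨C, p, hp, rfl⟩ := C
  exact ⟨p, mem_connectedComponentIn hp⟩

theorem separates_iff (H : A.planes) (C C' : A.Chamber) :
    A.Separates H.1 C C' ↔ chi A C H ≠ chi A C' H := by
  constructor
  · rintro ⟨g, hg, h1, h2⟩ heq
    obtain ⟨p, hp⟩ := exists_mem A C
    obtain ⟨q, hq⟩ := exists_mem A C'
    have hgp := h1 p hp
    have hgq := h2 q hq
    have hsp := sgn_of_mem A hp
    have hsq := sgn_of_mem A hq
    -- the combination in the kernel
    have hk : (g p) • q - (g q) • p ∈ H.1 := by
      rw [← hg, LinearMap.mem_ker, map_sub, map_smul, map_smul, smul_eq_mul, smul_eq_mul]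
      ring
    rw [← frm_eq_zero A H, map_sub, map_smul, map_smul, smul_eq_mul, smul_eq_mul] at hk
    have hs : SignType.sign (frm A H p) = SignType.sign (frm A H q) := by
      have e1 := congrFun hsp H
      have e2 := congrFun hsq H
      simp only [sgn] at e1 e2
      rw [e1, e2, heq]
    have hp0 : frm A H p ≠ 0 := by
      intro h
      have e1 := congrFun hsp H
      simp only [sgn, h, sign_zero] at e1
      exact chi_ne_zero A C H e1.symm
    rcases lt_or_gt_of_ne hp0 with h | h
    · have h' : frm A H q < 0 := by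
        rw [sign_neg h] at hs
        exact sign_eq_neg_one_iff.mp hs.symm
      nlinarith
    · have h' : 0 < frm A H q := by
        rw [sign_pos h] at hs
        exact sign_eq_one_iff.mp hs.symm
      nlinarith
  · intro hne
    have key : ∀ D D' : A.Chamber, chi A D H = 1 → chi A D' H = -1 →
        ∃ f : Module.Dual ℝ (Fin d → ℝ), LinearMap.ker f = H.1 ∧ (∀ p ∈ D.1, 0 < f p) ∧
          (∀ q ∈ D'.1, f q < 0) := by
      intro D D' h1 h2
      refine ⟨frm A H, ker_frm A H, ?_, ?_⟩
      · intro p hp
        have e := congrFun (sgn_of_mem A hp) H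
        rw [h1] at e
        exact sign_eq_one_iff.mp e
      · intro q hq
        have e := congrFun (sgn_of_mem A hq) H
        rw [h2] at e
        exact sign_eq_neg_one_iff.mp e
    have h1 := chi_ne_zero A C H
    have h2 := chi_ne_zero A C' H
    rcases hc : chi A C H with _ | _ | _
    · exact absurd hc h1
    · rcases hc' : chi A C' H with _ | _ | _
      · exact absurd hc' h2
      · exact absurd (hc.trans hc'.symm) hne
      · obtain ⟨f, hf, f1, f2⟩ := key C' C hc' hc
        refine ⟨-f, ?_, ?_, ?_⟩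
        · rw [← hf]; ext v; simp
        · intro p hp; simpa using f2 p hp
        · intro q hq; simpa using f1 q hq
    · rcases hc' : chi A C' H with _ | _ | _
      · exact absurd hc' h2
      · exact key C C' hc hc'
      · exact absurd (hc.trans hc'.symm) hne

theorem adj_iff (C C' : A.Chamber) :
    A.topeGraph.Adj C C' ↔ (sep (chi A C) (chi A C')).card = 1 := by
  rw [Finset.card_eq_one]
  constructor
  · rintro ⟨H, ⟨hH, hs⟩, hu⟩
    refine ⟨⟨H, hH⟩, ?_⟩
    ext K
    simp only [sep, Finset.mem_filter, Finset.mem_univ, true_and, Finset.mem_singleton]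
    constructor
    · intro h
      have := hu K.1 ⟨K.2, (separates_iff A K C C').mpr h⟩
      exact Subtype.ext this
    · rintro rfl
      exact (separates_iff A ⟨H, hH⟩ C C').mp hs
  · rintro ⟨H, hH⟩
    have hmem : ∀ K : A.planes, chi A C K ≠ chi A C' K ↔ K = H := by
      intro K
      have := Finset.ext_iff.mp hH K
      simpa [sep] using this
    refine ⟨H.1, ⟨H.2, (separates_iff A H C C').mpr ((hmem H).mpr rfl)⟩, ?_⟩
    rintro K ⟨hK, hs⟩
    have := (hmem ⟨K, hK⟩).mp ((separates_iff A ⟨K, hK⟩ C C').mp hs)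
    exact congrArg Subtype.val this

theorem sep_triangle {ι : Type*} [Fintype ι] (X Y Z : Sg ι) :
    (sep X Z).card ≤ (sep X Y).card + (sep Y Z).card := by
  classical
  refine le_trans (Finset.card_le_card ?_) (Finset.card_union_le _ _)
  intro i hi
  simp only [sep, Finset.mem_filter, Finset.mem_univ, true_and, Finset.mem_union] at hi ⊢
  by_contra h
  push Not at h
  exact hi (h.1.trans h.2)

theorem sep_self {ι : Type*} [Fintype ι] (X : Sg ι) : (sep X X).card = 0 := by
  simp [sep]

theorem le_walk {C C' : A.Chamber} (w : A.topeGraph.Walk C C') :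
    (sep (chi A C) (chi A C')).card ≤ w.length := by
  induction w with
  | nil => simp [sep_self]
  | @cons u v x h w ih =>
    rw [SimpleGraph.Walk.length_cons]
    have h1 := (adj_iff A _ _).mp h
    have h2 := sep_triangle (chi A u) (chi A v) (chi A x)
    omega

/-- one step towards a chamber -/
theorem step (h1 : S_C1) (C C' : A.Chamber) (hne : chi A C ≠ chi A C') :
    ∃ C'' : A.Chamber, A.topeGraph.Adj C C'' ∧
      (sep (chi A C'') (chi A C')).card + 1 = (sep (chi A C) (chi A C')).card := by
  classical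
  have hOM := h1 A.planes (Fin d → ℝ) (frm A)
  obtain ⟨Y, hY, hle, hss, hsub, hmin⟩ := hOM.wall (chi A C') (chi_mem A C') (chi A C)
    (chi_mem A C) (by rw [z_chi, z_chi]) hne.symm
  rw [z_chi] at hss hsub hmin
  simp only [Finset.sdiff_empty, Finset.empty_subset, true_imp_iff] at hsub hmin
  obtain ⟨H, hH⟩ : (z Y).Nonempty := by
    rw [Finset.nonempty_iff_ne_empty]
    intro h
    rw [h] at hss
    exact lt_irrefl _ hss
  -- the zero set of `Y` is a singleton
  have huniq : ∀ K ∈ z Y, K = H := by
    intro K hK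
    by_contra hKH
    have hnle : ¬ (H.1 ≤ K.1) := by
      intro hle'
      have heq : H.1 = K.1 := by
        apply Submodule.eq_of_le_of_finrank_eq hle'
        have e1 := A.hyper H.1 H.2
        have e2 := A.hyper K.1 K.2
        omega
      exact hKH (Subtype.ext heq.symm)
    obtain ⟨w, hwH, hwK⟩ := SetLike.not_le_iff_exists.mp hnle
    have h3 := hmin (sgn (frm A) w) ⟨w, rfl⟩ ⟨H, hH, (sgn_eq_zero A H w).mpr hwH⟩
    have h4 := h3 hK
    simp only [z, Finset.mem_filter, Finset.mem_univ, true_and] at h4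
    exact hwK ((sgn_eq_zero A K w).mp h4)
  have hYH : Y H = 0 := by simpa [z] using hH
  have hY0 : ∀ K, K ≠ H → Y K = chi A C K := by
    intro K hK
    rcases hle K with h | h
    · exact absurd (huniq K (by simpa [z] using h)) hK
    · exact h
  set Z' : Sg A.planes := comp Y (-(chi A C)) with hZ'
  have hZ'H : Z' H = -(chi A C H) := by simp [hZ', comp, hYH]
  have hZ'K : ∀ K, K ≠ H → Z' K = chi A C K := by
    intro K hK
    have h5 := hY0 K hK
    have h6 : Y K ≠ 0 := by rw [h5]; exact chi_ne_zero A C K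
    show (if Y K = 0 then (-(chi A C)) K else Y K) = chi A C K
    rw [if_neg h6, h5]
  have hZ'mem : Z' ∈ Set.range (sgn (frm A)) :=
    hOM.comp Y hY _ (hOM.neg _ (chi_mem A C))
  have hZ'z : z Z' = ∅ := by
    simp only [z, Finset.filter_eq_empty_iff, Finset.mem_univ, true_imp_iff]
    intro K
    by_cases hK : K = H
    · rw [hK, hZ'H]
      intro h
      apply chi_ne_zero A C H
      have : -(-(chi A C H)) = -0 := congrArg _ h
      simpa using this
    · rw [hZ'K K hK]; exact chi_ne_zero A C K
  obtain ⟨C'', hC''⟩ := (chi_range A Z').mpr ⟨hZ'mem, hZ'z⟩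
  have hsepH : H ∈ sep (chi A C') (chi A C) := hsub hH
  have hneH : chi A C H ≠ chi A C' H := by
    have : chi A C' H ≠ chi A C H := by simpa [sep] using hsepH
    exact this.symm
  have two : ∀ a b : SignType, a ≠ 0 → b ≠ 0 → a ≠ b → -a = b := by decide
  have hZ'C' : Z' H = chi A C' H := by
    rw [hZ'H]
    exact two _ _ (chi_ne_zero A C H) (chi_ne_zero A C' H) hneH
  have nneg : ∀ a : SignType, a ≠ 0 → a ≠ -a := by decide
  refine ⟨C'', ?_, ?_⟩
  · rw [adj_iff, Finset.card_eq_one, hC'']
    refine ⟨H, ?_⟩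
    ext K
    simp only [sep, Finset.mem_filter, Finset.mem_univ, true_and, Finset.mem_singleton]
    constructor
    · intro h
      by_contra hK
      exact h (hZ'K K hK).symm
    · rintro rfl
      rw [hZ'H]
      exact nneg _ (chi_ne_zero A C K)
  · rw [hC'']
    have hset : sep (chi A C) (chi A C') = insert H (sep Z' (chi A C')) := by
      ext K
      simp only [sep, Finset.mem_filter, Finset.mem_univ, true_and, Finset.mem_insert]
      by_cases hK : K = H
      · subst hK
        simp [hneH]
      · simp [hK, hZ'K K hK]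
    have hnot : H ∉ sep Z' (chi A C') := by
      simp [sep, hZ'C']
    rw [hset, Finset.card_insert_of_notMem hnot]

theorem exists_walk (h1 : S_C1) (n : ℕ) : ∀ C C' : A.Chamber,
    (sep (chi A C) (chi A C')).card = n → ∃ w : A.topeGraph.Walk C C', w.length = n := by
  induction n with
  | zero =>
    intro C C' h
    have : chi A C = chi A C' := by
      rw [Finset.card_eq_zero] at h
      funext K
      by_contra hK
      have : K ∈ sep (chi A C) (chi A C') := by simpa [sep] using hK
      rw [h] at this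
      simp at this
    have hCC := chi_inj A this
    subst hCC
    exact ⟨SimpleGraph.Walk.nil, rfl⟩
  | succ n ih =>
    intro C C' h
    have hne : chi A C ≠ chi A C' := by
      intro he
      rw [he, sep_self] at h
      omega
    obtain ⟨C'', hadj, hc⟩ := step A h1 C C' hne
    obtain ⟨w, hw⟩ := ih C'' C' (by omega)
    exact ⟨SimpleGraph.Walk.cons hadj w, by rw [SimpleGraph.Walk.length_cons, hw]⟩

theorem t_C2 (h1 : S_C1) : S_C2 := by
  intro d A
  refine ⟨frm A, chi A, chi_inj A, chi_range A, ?_⟩
  intro C C'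
  obtain ⟨w, hw⟩ := exists_walk A h1 _ C C' rfl
  apply le_antisymm
  · rw [← hw]
    exact SimpleGraph.dist_le w
  · obtain ⟨w', hw'⟩ := (SimpleGraph.Walk.reachable w).exists_walk_length_eq_dist
    rw [← hw']
    exact le_walk A w'

end Pool.Agent.E8helper15.MAG
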